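import Pool.Agent.Helper8_BRW.Stmts

/-!
# Squad BRW, module C3: hitting `y + K` takes at least the time `L` more than hitting `y`
-/

set_option autoImplicit false

open MeasureTheory Set Filter

namespace BRW.H47

theorem c3 (hmax : MaxStmt) (hstr : StripStmt) : C3Stmt := by
  intro b hb
  obtain ⟨ρ, hρ1, hρ2, hstrip⟩ := hstr b hb
  refine ⟨ρ, hρ1, hρ2, ?_⟩
  intro L hL
  obtain ⟨K0, hK0⟩ := hstrip L hL
  refine ⟨K0, ?_⟩
  intro K hK a ξ hEnv y v' v hv' hv t x ht hx htx
  have hρ : 0 < ρ := by linarith
  have hst := hK0 K hK a ξ hEnv y v' v hv' hv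
  -- the exit time of the strip
  set s0 : ℤ → ℝ := fun z => ((y + K - z : ℤ) : ℝ) / ρ with hs0
  have hs0n : ∀ z, z < y → 0 ≤ s0 z := by
    intro z hz
    have h1 : (0 : ℤ) ≤ y + K - z := by omega
    exact div_nonneg (by exact_mod_cast h1) hρ.le
  have hs0r : ∀ z, ρ * s0 z = ((y + K - z : ℤ) : ℝ) := by
    intro z
    rw [hs0]
    field_simp
  have hLs : ∀ z, z < y → L ≤ s0 z := by
    intro z hz
    exact (hst (s0 z) z (hs0n z hz) hz (hs0r z).le (by rw [hs0r z]; linarith)).1
  have hLr : ∀ r z, 0 ≤ r → z < y → ((y + K - z : ℤ) : ℝ) ≤ ρ * r + 1 → L ≤ r := by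
    intro r z hr hz h
    by_cases h2 : ρ * r ≤ ((y + K - z : ℤ) : ℝ)
    · exact (hst r z hr hz h2 h).1
    · push Not at h2
      have h3 : s0 z ≤ r := by
        have := hs0r z
        nlinarith
      exact (hLs z hz).trans h3
  refine ⟨hLr t x ht hx (by linarith), ?_⟩
  classical
  set δ : ℝ → ℤ → ℝ := fun r z =>
    if z < y ∧ ((y + K - z : ℤ) : ℝ) ≤ ρ * r + 1 then v' r z - v (r - L) z else 0 with hδ
  have hδpos : ∀ r z, z < y → ((y + K - z : ℤ) : ℝ) ≤ ρ * r + 1 →
      δ r z = v' r z - v (r - L) z := by
    intro r z h1 h2
    rw [hδ]
    exact if_pos ⟨h1, h2⟩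
  set s : ℤ → ℝ := fun z => if z < y then s0 z else 0 with hs
  have hsy : ∀ z, z < y → s z = s0 z := by
    intro z hz
    rw [hs]
    exact if_pos hz
  have hsle : ∀ z r, z < y → s z ≤ r → ((y + K - z : ℤ) : ℝ) ≤ ρ * r := by
    intro z r hz hr
    rw [hsy z hz] at hr
    rw [← hs0r z]
    exact mul_le_mul_of_nonneg_left hr hρ.le
  have hmain : ∀ r z, 0 ≤ r → r ≤ t → δ r z ≤ 0 := by
    apply hmax δ t b 1 s hb.le
    · intro z
      by_cases hz : z < y
      · rw [hsy z hz]
        exact hs0n z hz
      · rw [hs]
        simp only
        rw [if_neg hz]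
    · intro r z hr _
      by_cases hc : z < y ∧ ((y + K - z : ℤ) : ℝ) ≤ ρ * r + 1
      · rw [hδpos r z hc.1 hc.2]
        have h1 := hLr r z hr hc.1 hc.2
        have h2 := hv'.le_one r z hr
        have h3 := hv.nonneg (r - L) z (by linarith)
        linarith
      · rw [hδ]
        simp only
        rw [if_neg hc]
        exact zero_le_one
    · intro r z hr _ hrs
      by_cases hc : z < y ∧ ((y + K - z : ℤ) : ℝ) ≤ ρ * r + 1
      · rw [hδpos r z hc.1 hc.2]
        rw [hsy z hc.1] at hrs
        have h4 : ρ * r ≤ ((y + K - z : ℤ) : ℝ) := by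
          rw [← hs0r z]
          exact mul_le_mul_of_nonneg_left hrs hρ.le
        have h5 := (hst r z hr hc.1 h4 hc.2).2
        linarith
      · rw [hδ]
        simp only
        rw [if_neg hc]
    · intro z
      by_cases hz : z < y
      · have hcont : ContinuousOn (fun r => v' r z - v (r - L) z) (Icc (s z) t) := by
          apply ContinuousOn.sub
          · intro r hr
            have h0 : 0 ≤ r := by
              have := hs0n z hz
              rw [hsy z hz] at hr
              linarith [hr.1]
            have hd := hv'.deriv r z h0 (show z ∈ Iio (y + (K : ℤ)) by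
              simp only [mem_Iio]; omega)
            exact hd.continuousWithinAt.mono (fun q hq => by
              have := hs0n z hz
              rw [hsy z hz] at hq
              exact le_trans this hq.1)
          · intro r hr
            have hLz := hLs z hz
            have h0 : 0 ≤ r - L := by
              rw [hsy z hz] at hr
              linarith [hr.1]
            have hd := (hv.deriv (r - L) z h0 (show z ∈ Iio y from hz)).continuousWithinAt
            have hc2 : ContinuousWithinAt (fun q : ℝ => q - L) (Icc (s z) t) r :=
              (continuous_id.sub continuous_const).continuousWithinAt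
            exact ContinuousWithinAt.comp (f := fun q : ℝ => q - L) (g := fun q => v q z)
              (t := Ici 0) hd hc2 (fun q hq => by
                rw [hsy z hz] at hq
                simp only [mem_Ici]
                linarith [hq.1])
        refine hcont.congr ?_
        intro r hr
        exact hδpos r z hz (by linarith [hsle z r hz hr.1])
      · have : (fun r => δ r z) = fun _ => (0 : ℝ) := by
          funext r
          rw [hδ]
          simp only
          rw [if_neg (fun h => hz h.1)]
        rw [this]
        exact continuousOn_const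
    · intro r z hsr hrt hpos
      have hz : z < y := by
        by_contra hz
        rw [hδ] at hpos
        simp only at hpos
        rw [if_neg (fun h => hz h.1)] at hpos
        exact lt_irrefl _ hpos
      have hr0 : 0 ≤ r := by
        rw [hsy z hz] at hsr
        exact (hs0n z hz).trans hsr
      have hreg := hsle z r hz hsr
      have hLr' : L ≤ r := hLr r z hr0 hz (by linarith)
      have e0 := hδpos r z hz (by linarith)
      have d1 : HasDerivWithinAt (fun q => v' q z)
          (lap (v' r) z + ξ z * (v' r z * (1 - v' r z))) (Ici r) r :=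
        (hv'.deriv r z hr0 (show z ∈ Iio (y + (K : ℤ)) by simp only [mem_Iio]; omega)).mono
          (fun q hq => le_trans hr0 hq)
      have d2 : HasDerivWithinAt (fun q => v (q - L) z)
          (lap (v (r - L)) z + ξ z * (v (r - L) z * (1 - v (r - L) z))) (Ici r) r := by
        have h1 := hv.deriv (r - L) z (by linarith) (show z ∈ Iio y from hz)
        have h2 : HasDerivWithinAt (fun q : ℝ => q - L) 1 (Ici r) r :=
          ((hasDerivAt_id r).sub_const L).hasDerivWithinAt
        have h3 := HasDerivWithinAt.comp (h₂ := fun q => v q z) (h := fun q : ℝ => q - L)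
          (s' := Ici 0) r h1 h2 (fun q hq => by
            simp only [mem_Ici] at hq ⊢
            linarith)
        rw [mul_one] at h3
        exact h3
      refine ⟨_, (d1.sub d2).congr ?_ ?_, ?_⟩
      · intro q hq
        have hq' : s z ≤ q := hsr.trans hq
        exact hδpos q z hz (by linarith [hsle z q hz hq'])
      · exact e0
      · have hD : 0 < v' r z - v (r - L) z := by rw [← e0]; exact hpos
        have h1 : v' r (z + 1) - v (r - L) (z + 1) ≤ max (δ r (z + 1)) 0 := by
          by_cases hz1 : z + 1 < y
          · rw [hδpos r (z + 1) hz1 (by push_cast at hreg ⊢; linarith)]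
            exact le_max_left _ _
          · have h2 := hv'.le_one r (z + 1) hr0
            have h3 := hv.stat (r - L) (z + 1) (by linarith)
              (show z + 1 ∉ Iio y by simp only [mem_Iio]; exact hz1)
            have h4 : ind y (z + 1) = 1 := by
              unfold ind
              exact if_pos (by omega)
            rw [h3, h4]
            exact (by linarith : v' r (z + 1) - 1 ≤ 0).trans (le_max_right _ _)
        have h2 : v' r (z - 1) - v (r - L) (z - 1) ≤ max (δ r (z - 1)) 0 := by
          rw [hδpos r (z - 1) (by omega) (by push_cast at hreg ⊢; linarith)]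
          exact le_max_left _ _
        rw [e0]
        have hξ := (hEnv.2 z).2
        have hξ0 : 0 < ξ z := lt_of_lt_of_le hEnv.1 (hEnv.2 z).1
        have h3 := hv'.nonneg r z hr0
        have h4 := hv.nonneg (r - L) z (by linarith)
        have h5 : ξ z * (v' r z * (1 - v' r z)) - ξ z * (v (r - L) z * (1 - v (r - L) z)) ≤
            b * (v' r z - v (r - L) z) := by
          have e1 : ξ z * (v' r z * (1 - v' r z)) - ξ z * (v (r - L) z * (1 - v (r - L) z)) =
            ξ z * (v' r z - v (r - L) z) - ξ z * ((v' r z - v (r - L) z) *
              (v' r z + v (r - L) z)) := by ring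
          rw [e1]
          have h6 : 0 ≤ ξ z * ((v' r z - v (r - L) z) * (v' r z + v (r - L) z)) := by positivity
          have h7 : ξ z * (v' r z - v (r - L) z) ≤ b * (v' r z - v (r - L) z) :=
            mul_le_mul_of_nonneg_right hξ hD.le
          linarith
        have e2 : lap (v' r) z - lap (v (r - L)) z =
            ((v' r (z + 1) - v (r - L) (z + 1)) + (v' r (z - 1) - v (r - L) (z - 1))) / 2 -
              (v' r z - v (r - L) z) := by
          unfold lap
          ring
        linarith
  have hfin := hmain t x ht le_rfl
  rw [hδpos t x hx (by linarith)] at hfin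
  linarith

end BRW.H47
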