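import Pool.Agent.Helper8_BRW.Stmts

/-!
# Squad BRW, module G0: the basic growth lemma
-/

set_option autoImplicit false

open MeasureTheory Set Filter

namespace BRW.H47

lemma ge_of_deriv {F G F' G' : ℝ → ℝ}
    (hF : ∀ s, 0 ≤ s → HasDerivWithinAt F (F' s) (Ici 0) s)
    (hG : ∀ s, 0 ≤ s → HasDerivWithinAt G (G' s) (Ici 0) s)
    (h : ∀ s, 0 ≤ s → G' s ≤ F' s) (h0 : G 0 ≤ F 0) :
    ∀ s, 0 ≤ s → G s ≤ F s := by
  have hm : MonotoneOn (fun s => F s - G s) (Ici 0) := by
    apply monotoneOn_of_hasDerivWithinAt_nonneg (convex_Ici 0) (f' := fun s => F' s - G' s)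
    · intro s hs
      exact ((hF s hs).sub (hG s hs)).continuousWithinAt
    · intro s hs
      have h1 := interior_subset hs
      exact ((hF s h1).sub (hG s h1)).mono interior_subset
    · intro s hs
      have h1 := interior_subset hs
      linarith [h s h1]
  intro s hs
  have := hm (Set.mem_Ici.mpr (le_refl (0 : ℝ))) (Set.mem_Ici.mpr hs) hs
  beta_reduce at this
  linarith

lemma low {a b : ℝ} {ξ : ℤ → ℝ} (hE : Env a b ξ) {f : ℤ → ℝ} {u : ℝ → ℤ → ℝ}
    (hu : IsSol ξ univ f u) (t0 p : ℝ) (x0 σ : ℤ) (hσ : σ = 1 ∨ σ = -1) (ht0 : 0 ≤ t0)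
    (hpu : p ≤ u t0 x0) (n : ℕ) : ∀ s : ℝ, 0 ≤ s →
    Real.exp (-s) * (s / 2) ^ n / n.factorial * p ≤ u (t0 + s) (x0 + σ * n) := by
  have key : ∀ (z : ℤ) (s : ℝ), 0 ≤ s → HasDerivWithinAt (fun r => Real.exp r * u (t0 + r) z)
      (Real.exp s * (u (t0 + s) z) + Real.exp s *
        (lap (u (t0 + s)) z + ξ z * (u (t0 + s) z * (1 - u (t0 + s) z)))) (Ici 0) s := by
    intro z s hs
    have h1 := hu.deriv (t0 + s) z (by linarith) (mem_univ z)
    have h2 : HasDerivWithinAt (fun r : ℝ => t0 + r) 1 (Ici 0) s :=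
      ((hasDerivAt_id s).const_add t0).hasDerivWithinAt
    have h3 := HasDerivWithinAt.comp (h₂ := fun q => u q z) (h := fun r : ℝ => t0 + r)
      (s' := Ici 0) s h1 h2 (fun q hq => by
        simp only [mem_Ici] at hq ⊢
        linarith)
    rw [mul_one] at h3
    exact ((Real.hasDerivAt_exp s).hasDerivWithinAt).mul h3
  have hnn : ∀ (z : ℤ) (s : ℝ), 0 ≤ s →
      0 ≤ ξ z * (u (t0 + s) z * (1 - u (t0 + s) z)) := by
    intro z s hs
    have hξ0 : 0 < ξ z := lt_of_lt_of_le hE.1 (hE.2 z).1
    have h1 := hu.nonneg (t0 + s) z (by linarith)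
    have h2 := hu.le_one (t0 + s) z (by linarith)
    exact mul_nonneg hξ0.le (mul_nonneg h1 (by linarith))
  induction n with
  | zero =>
    intro s hs
    have h := ge_of_deriv (F := fun r => Real.exp r * u (t0 + r) x0) (G := fun _ => p)
      (G' := fun _ => 0) (key x0) (fun r _ => (hasDerivAt_const r p).hasDerivWithinAt) ?_ ?_ s hs
    · beta_reduce at h
      have h1 : Real.exp (-s) * (s / 2) ^ 0 / (Nat.factorial 0 : ℝ) * p = Real.exp (-s) * p := by
        simp
      rw [h1]
      have h2 : x0 + σ * ((0 : ℕ) : ℤ) = x0 := by simp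
      rw [h2]
      have h3 : Real.exp (-s) * p ≤ Real.exp (-s) * (Real.exp s * u (t0 + s) x0) :=
        mul_le_mul_of_nonneg_left h (Real.exp_pos _).le
      rw [← mul_assoc, ← Real.exp_add] at h3
      simpa using h3
    · intro r hr
      rw [← mul_add]
      apply mul_nonneg (Real.exp_pos _).le
      have h1 := hnn x0 r hr
      have h2 := hu.nonneg (t0 + r) (x0 + 1) (by linarith)
      have h3 := hu.nonneg (t0 + r) (x0 - 1) (by linarith)
      unfold lap
      linarith
    · simpa using hpu
  | succ n ih =>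
    intro s hs
    have hgd : ∀ r : ℝ, HasDerivAt (fun r : ℝ => (r / 2) ^ (n + 1) / (n + 1).factorial * p)
        ((r / 2) ^ n / n.factorial * p / 2) r := by
      intro r
      have h1 : HasDerivAt (fun r : ℝ => r / 2) (1 / 2) r := (hasDerivAt_id r).div_const 2
      have h2 := ((h1.pow (n + 1)).div_const ((n + 1).factorial : ℝ)).mul_const p
      refine h2.congr_deriv ?_
      have hf : ((n + 1).factorial : ℝ) = (n + 1) * n.factorial := by
        rw [Nat.factorial_succ]; push_cast; ring
      have h3 : (n.factorial : ℝ) ≠ 0 := by positivity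
      have h4 : ((n : ℝ) + 1) ≠ 0 := by positivity
      rw [hf]
      simp only [Nat.add_sub_cancel]
      push_cast
      field_simp
    have h := ge_of_deriv (F := fun r => Real.exp r * u (t0 + r) (x0 + σ * (n + 1 : ℕ)))
      (G := fun r : ℝ => (r / 2) ^ (n + 1) / (n + 1).factorial * p)
      (key (x0 + σ * (n + 1 : ℕ))) (fun r _ => (hgd r).hasDerivWithinAt) ?_ ?_ s hs
    · beta_reduce at h
      have h3 : Real.exp (-s) * ((s / 2) ^ (n + 1) / (n + 1).factorial * p) ≤
          Real.exp (-s) * (Real.exp s * u (t0 + s) (x0 + σ * (n + 1 : ℕ))) :=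
        mul_le_mul_of_nonneg_left h (Real.exp_pos _).le
      rw [← mul_assoc (Real.exp (-s)) (Real.exp s), ← Real.exp_add] at h3
      simp only [neg_add_cancel, Real.exp_zero, one_mul] at h3
      calc Real.exp (-s) * (s / 2) ^ (n + 1) / (n + 1).factorial * p
          = Real.exp (-s) * ((s / 2) ^ (n + 1) / (n + 1).factorial * p) := by ring
        _ ≤ _ := h3
    · intro r hr
      set z := x0 + σ * ((n + 1 : ℕ) : ℤ) with hz
      have h1 := hnn z r hr
      have h2 := hu.nonneg (t0 + r) (z + 1) (by linarith)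
      have h3 := hu.nonneg (t0 + r) (z - 1) (by linarith)
      have h4 := ih r hr
      have h5 : u (t0 + r) (x0 + σ * n) ≤ u (t0 + r) (z + 1) + u (t0 + r) (z - 1) := by
        rcases hσ with h6 | h6
        · have : z - 1 = x0 + σ * n := by rw [hz, h6]; push_cast; ring
          rw [this]; linarith
        · have : z + 1 = x0 + σ * n := by rw [hz, h6]; push_cast; ring
          rw [this]; linarith
      have h6 : (r / 2) ^ n / n.factorial * p ≤
          Real.exp r * (u (t0 + r) (z + 1) + u (t0 + r) (z - 1)) := by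
        have h7 : Real.exp r * (Real.exp (-r) * (r / 2) ^ n / n.factorial * p) ≤
            Real.exp r * (u (t0 + r) (z + 1) + u (t0 + r) (z - 1)) :=
          mul_le_mul_of_nonneg_left (h4.trans h5) (Real.exp_pos _).le
        have h8 : Real.exp r * (Real.exp (-r) * (r / 2) ^ n / n.factorial * p) =
            (Real.exp r * Real.exp (-r)) * ((r / 2) ^ n / n.factorial * p) := by ring
        rw [h8, ← Real.exp_add] at h7
        simpa using h7
      rw [← mul_add]
      have h9 : Real.exp r * ((u (t0 + r) (z + 1) + u (t0 + r) (z - 1)) / 2) ≤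
          Real.exp r * (u (t0 + r) z + (lap (u (t0 + r)) z +
            ξ z * (u (t0 + r) z * (1 - u (t0 + r) z)))) := by
        apply mul_le_mul_of_nonneg_left _ (Real.exp_pos _).le
        unfold lap
        linarith
      linarith
    · have := hu.nonneg t0 (x0 + σ * (n + 1 : ℕ)) ht0
      simpa using this

theorem g0 (hmax : MaxStmt) : G0Stmt := by
  intro a b ξ hE f u hu R κ hR hκ hκ0 t0 p x0 ht0 hp hp1 hpu t j ht hj e he heκ
  have ha : 0 < a := hE.1
  have hRr : (0 : ℝ) < R := by exact_mod_cast (by omega : 0 < R)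
  have he0 : 0 < e := by rw [he]; positivity
  have hcos1 : Real.cos (Real.pi / (2 * R)) ≤ 1 := Real.cos_le_one _
  have hκ1 : κ ≤ 1 := by
    have : 0 ≤ (1 - Real.cos (Real.pi / (2 * R))) / a := div_nonneg (by linarith) ha.le
    linarith
  have haκ : a * κ = a - (1 - Real.cos (Real.pi / (2 * R))) := by
    rw [hκ]
    field_simp
  -- initial lower bound on the box
  have hinit : ∀ z : ℤ, |z - x0| ≤ R → e ≤ u (t0 + 1) z := by
    intro z hz
    have hlow : ∃ n : ℕ, n ≤ R ∧ Real.exp (-1) * (1 / 2) ^ n / n.factorial * p ≤ u (t0 + 1) z := by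
      rw [abs_le] at hz
      refine ⟨(z - x0).natAbs, by omega, ?_⟩
      rcases le_total 0 (z - x0) with h | h
      · have h1 := low hE hu t0 p x0 1 (Or.inl rfl) ht0 hpu (z - x0).natAbs 1 zero_le_one
        have h2 : x0 + 1 * (((z - x0).natAbs : ℕ) : ℤ) = z := by omega
        rw [h2] at h1
        exact h1
      · have h1 := low hE hu t0 p x0 (-1) (Or.inr rfl) ht0 hpu (z - x0).natAbs 1 zero_le_one
        have h2 : x0 + (-1) * (((z - x0).natAbs : ℕ) : ℤ) = z := by omega
        rw [h2] at h1
        exact h1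
    obtain ⟨n, hn, h1⟩ := hlow
    refine le_trans ?_ h1
    rw [he]
    apply mul_le_mul_of_nonneg_right _ hp.le
    have h2 : ((1 : ℝ) / 2) ^ R ≤ (1 / 2) ^ n :=
      pow_le_pow_of_le_one (by norm_num) (by norm_num) hn
    have h3 : (n.factorial : ℝ) ≤ R.factorial := by
      exact_mod_cast Nat.factorial_le hn
    have h4 : (0 : ℝ) < n.factorial := by positivity
    gcongr
  -- the cosine profile
  classical
  set φ : ℤ → ℝ := fun k => if |k| ≤ R then Real.cos (Real.pi * k / (2 * R)) else 0 with hφ
  have hφe : ∀ k : ℤ, |k| ≤ R → φ k = Real.cos (Real.pi * k / (2 * R)) := by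
    intro k hk
    rw [hφ]
    exact if_pos hk
  have hφo : ∀ k : ℤ, (R : ℤ) ≤ |k| → φ k = 0 := by
    intro k hk
    by_cases h : |k| ≤ R
    · rw [hφe k h]
      have h1 : |k| = R := le_antisymm h hk
      rcases abs_eq (by positivity : (0 : ℤ) ≤ R) |>.mp h1 with h2 | h2
      · rw [h2]
        have : Real.pi * ((R : ℤ) : ℝ) / (2 * R) = Real.pi / 2 := by
          push_cast
          field_simp
        rw [this, Real.cos_pi_div_two]
      · rw [h2]
        have : Real.pi * ((-(R : ℤ) : ℤ) : ℝ) / (2 * R) = -(Real.pi / 2) := by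
          push_cast
          field_simp
        rw [this, Real.cos_neg, Real.cos_pi_div_two]
    · rw [hφ]
      exact if_neg h
  have hφ0 : ∀ k, 0 ≤ φ k := by
    intro k
    by_cases h : |k| ≤ R
    · rw [hφe k h]
      have h1 : |(k : ℝ)| ≤ R := by
        have : ((|k| : ℤ) : ℝ) ≤ ((R : ℤ) : ℝ) := by exact_mod_cast h
        simpa using this
      rw [abs_le] at h1
      apply Real.cos_nonneg_of_neg_pi_div_two_le_of_le
      · rw [le_div_iff₀ (by positivity)]
        nlinarith [Real.pi_pos, h1.1]
      · rw [div_le_iff₀ (by positivity)]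
        nlinarith [Real.pi_pos, h1.2]
    · rw [hφ]
      simp only
      rw [if_neg h]
  have hφ1 : ∀ k, φ k ≤ 1 := by
    intro k
    by_cases h : |k| ≤ R
    · rw [hφe k h]
      exact Real.cos_le_one _
    · rw [hφ]
      simp only
      rw [if_neg h]
      exact zero_le_one
  have hφlap : ∀ k : ℤ, |k| < R → φ (k + 1) + φ (k - 1) =
      2 * Real.cos (Real.pi / (2 * R)) * φ k := by
    intro k hk
    have h1 : |k + 1| ≤ R := by rw [abs_lt] at hk; rw [abs_le]; omega
    have h2 : |k - 1| ≤ R := by rw [abs_lt] at hk; rw [abs_le]; omega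
    rw [hφe _ h1, hφe _ h2, hφe _ hk.le]
    have e1 : Real.pi * ((k + 1 : ℤ) : ℝ) / (2 * R) = Real.pi * k / (2 * R) + Real.pi / (2 * R) := by
      push_cast
      ring
    have e2 : Real.pi * ((k - 1 : ℤ) : ℝ) / (2 * R) = Real.pi * k / (2 * R) - Real.pi / (2 * R) := by
      push_cast
      ring
    rw [e1, e2, Real.cos_add, Real.cos_sub]
    ring
  -- the logistic function
  set E : ℝ → ℝ := fun r => Real.exp (a * κ * r) with hEdef
  set D : ℝ → ℝ := fun r => κ + e * (E r - 1) with hD
  set ep : ℝ → ℝ := fun r => κ * e * E r / D r with hep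
  have hE1 : ∀ r, 0 ≤ r → 1 ≤ E r := by
    intro r hr
    rw [hEdef]
    exact Real.one_le_exp (by positivity)
  have hDpos : ∀ r, 0 ≤ r → 0 < D r := by
    intro r hr
    have := hE1 r hr
    rw [hD]
    have : 0 ≤ e * (E r - 1) := mul_nonneg he0.le (by linarith)
    simp only
    linarith
  have hep0 : ∀ r, 0 ≤ r → 0 ≤ ep r := by
    intro r hr
    have h1 := hDpos r hr
    have h2 := hE1 r hr
    rw [hep]
    simp only
    positivity
  have hepκ : ∀ r, 0 ≤ r → ep r ≤ κ := by
    intro r hr
    have h1 := hDpos r hr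
    have h2 := hE1 r hr
    rw [hep]
    simp only
    rw [div_le_iff₀ h1, hD]
    simp only
    nlinarith
  have hepd : ∀ r, 0 ≤ r → HasDerivAt ep (a * ep r * (κ - ep r)) r := by
    intro r hr
    have h1 := hDpos r hr
    have hdE : HasDerivAt E (E r * (a * κ)) r := by
      have h3 : HasDerivAt (fun r : ℝ => a * κ * r) (a * κ) r := by
        simpa using (hasDerivAt_id r).const_mul (a * κ)
      exact h3.exp
    have hdD : HasDerivAt D (e * (E r * (a * κ))) r := by
      have := ((hdE.sub_const 1).const_mul e).const_add κ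
      exact this
    have hdN : HasDerivAt (fun r => κ * e * E r) (κ * e * (E r * (a * κ))) r :=
      hdE.const_mul (κ * e)
    have h4 := hdN.div hdD h1.ne'
    refine h4.congr_deriv ?_
    rw [hep]
    beta_reduce
    have h6 : D r ≠ 0 := h1.ne'
    field_simp
  -- maximum principle
  have hud : ∀ (z : ℤ) (r : ℝ), 0 ≤ r → HasDerivWithinAt (fun q => u (t0 + 1 + q) z)
      (lap (u (t0 + 1 + r)) z + ξ z * (u (t0 + 1 + r) z * (1 - u (t0 + 1 + r) z))) (Ici 0) r := by
    intro z r hr
    have h1 := hu.deriv (t0 + 1 + r) z (by linarith) (mem_univ z)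
    have h2 : HasDerivWithinAt (fun q : ℝ => t0 + 1 + q) 1 (Ici 0) r :=
      ((hasDerivAt_id r).const_add (t0 + 1)).hasDerivWithinAt
    have h3 := HasDerivWithinAt.comp (h₂ := fun q => u q z) (h := fun q : ℝ => t0 + 1 + q)
      (s' := Ici 0) r h1 h2 (fun q hq => by
        simp only [mem_Ici] at hq ⊢
        linarith)
    rw [mul_one] at h3
    exact h3
  have hmain : ∀ r z, 0 ≤ r → r ≤ t → ep r * φ (z - x0) - u (t0 + 1 + r) z ≤ 0 := by
    apply hmax (fun r z => ep r * φ (z - x0) - u (t0 + 1 + r) z) t a 1 (fun _ => 0) ha.le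
      (fun _ => le_rfl)
    · intro r z hr _
      have h1 := hep0 r hr
      have h2 := hepκ r hr
      have h3 := hφ0 (z - x0)
      have h4 := hφ1 (z - x0)
      have h5 := hu.nonneg (t0 + 1 + r) z (by linarith)
      nlinarith
    · intro r z hr _ hr0
      have h0 : r = 0 := le_antisymm hr0 hr
      subst h0
      have h1 : ep 0 = e := by
        rw [hep, hD, hEdef]
        simp only [mul_zero, Real.exp_zero, sub_self, add_zero, mul_one]
        field_simp
      rw [h1, add_zero]
      by_cases h : |z - x0| ≤ R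
      · have h2 := hinit z h
        have h3 := hφ1 (z - x0)
        nlinarith
      · push Not at h
        rw [hφo _ h.le]
        have h2 := hu.nonneg (t0 + 1) z (by linarith)
        linarith
    · intro z r hr
      exact (((hepd r hr.1).hasDerivWithinAt.mul_const _).sub
        ((hud z r hr.1).mono (fun q hq => hq.1))).continuousWithinAt
    · intro r z hr hrt hpos
      have hin : |z - x0| < R := by
        by_contra h
        push Not at h
        rw [hφo _ h] at hpos
        have h2 := hu.nonneg (t0 + 1 + r) z (by linarith)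
        linarith
      refine ⟨_, (((hepd r hr).hasDerivWithinAt.mul_const (φ (z - x0))).sub
        ((hud z r hr).mono (fun q hq => le_trans hr hq))), ?_⟩
      have hl := hφlap (z - x0) hin
      have i1 : z + 1 - x0 = z - x0 + 1 := by ring
      have i2 : z - 1 - x0 = z - x0 - 1 := by ring
      simp only [i1, i2]
      set P := φ (z - x0) with hP
      set P1 := φ (z - x0 + 1) with hP1
      set P2 := φ (z - x0 - 1) with hP2
      set U := u (t0 + 1 + r) z with hU
      set U1 := u (t0 + 1 + r) (z + 1) with hU1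
      set U2 := u (t0 + 1 + r) (z - 1) with hU2
      set w := ep r with hw
      have hP0 : 0 ≤ P := hφ0 _
      have hPl : P ≤ 1 := hφ1 _
      have hw0 : 0 ≤ w := hep0 r hr
      have hU0 : 0 ≤ U := hu.nonneg _ _ (by linarith)
      have hUl : U ≤ 1 := hu.le_one _ _ (by linarith)
      have hξa := (hE.2 z).1
      have hlapu : lap (u (t0 + 1 + r)) z = (U1 + U2) / 2 - U := rfl
      rw [hlapu]
      have m1 : w * P1 - U1 ≤ max (w * P1 - U1) 0 := le_max_left _ _
      have m2 : w * P2 - U2 ≤ max (w * P2 - U2) 0 := le_max_left _ _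
      have k1 : a * w * (κ - w) * P = (w * P1 + w * P2) / 2 - w * P + a * (w * P) -
          a * (w * (w * P)) := by
        have : a * w * (κ - w) * P = (a * κ) * (w * P) - a * (w * (w * P)) := by ring
        rw [this, haκ]
        have h3 : (w * P1 + w * P2) / 2 = w * (P1 + P2) / 2 := by ring
        rw [h3, hl]
        ring
      have k2 : a * (U * (1 - U)) ≤ ξ z * (U * (1 - U)) :=
        mul_le_mul_of_nonneg_right hξa (mul_nonneg hU0 (by linarith))
      have k3 : a * ((w * P) * (w * P)) ≤ a * (w * (w * P)) := by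
        apply mul_le_mul_of_nonneg_left _ ha.le
        have : (w * P) * (w * P) = (w * (w * P)) * P := by ring
        rw [this]
        exact mul_le_of_le_one_right (by positivity) hPl
      have k4 : a * (w * P) - a * ((w * P) * (w * P)) - a * (U * (1 - U)) ≤ a * (w * P - U) := by
        have h5 : a * (w * P) - a * ((w * P) * (w * P)) - a * (U * (1 - U)) =
          a * (w * P - U) - a * ((w * P) ^ 2 - U ^ 2) := by ring
        rw [h5]
        have h6 : 0 ≤ a * ((w * P) ^ 2 - U ^ 2) := by
          apply mul_nonneg ha.le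
          have h7 : (w * P) ^ 2 - U ^ 2 = (w * P - U) * (w * P + U) := by ring
          rw [h7]
          exact mul_nonneg hpos.le (by positivity)
        linarith
      rw [k1]
      linarith
  have hfin := hmain t (x0 + j) ht le_rfl
  have h1 : x0 + j - x0 = j := by ring
  rw [h1, hφe j hj] at hfin
  linarith

end BRW.H47
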