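import Pool.Agent.Helper8_BRW.Stmts

/-!
# Squad BRW, module PRD: independence of the initial particles
-/

set_option autoImplicit false

open MeasureTheory Set Filter ProbabilityTheory

namespace BRW.H47

/-- The finite set of initial particles with starting point in `F`. -/
noncomputable def parts (u0 : ℤ → ℕ) (F : Finset ℤ) : Finset (ℤ × ℕ) :=
  F.biUnion (fun z => (Finset.range (u0 z)).image (fun i => (z, i)))

lemma mem_parts (u0 : ℤ → ℕ) (F : Finset ℤ) (p : ℤ × ℕ) :
    p ∈ parts u0 F ↔ p.1 ∈ F ∧ p.2 ∈ Finset.range (u0 p.1) := by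
  unfold parts
  constructor
  · intro h
    rw [Finset.mem_biUnion] at h
    obtain ⟨z, hz, hp⟩ := h
    rw [Finset.mem_image] at hp
    obtain ⟨i, hi, rfl⟩ := hp
    exact ⟨hz, hi⟩
  · rintro ⟨h1, h2⟩
    rw [Finset.mem_biUnion]
    refine ⟨p.1, h1, ?_⟩
    rw [Finset.mem_image]
    exact ⟨p.2, h2, rfl⟩

theorem prd : PrdStmt := by
  intro u0 E f hE hf hl
  set S : Finset ℤ → Set (ℤ × ℕ → List Bool → ℝ × ℝ) :=
    fun F => Set.pi (parts u0 F : Set (ℤ × ℕ)) (fun p => (E p.1)ᶜ) with hS
  have hset : {ω : ℤ × ℕ → List Bool → ℝ × ℝ | ∀ (z : ℤ) (i : ℕ), i < u0 z → ω (z, i) ∉ E z}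
      = ⋂ F, S F := by
    ext ω
    simp only [Set.mem_ofPred_eq, mem_iInter, hS, Set.mem_pi, Finset.mem_coe, mem_parts,
      Finset.mem_range, mem_compl_iff]
    constructor
    · rintro h F ⟨z, i⟩ ⟨_, hi⟩
      exact h z i hi
    · intro h z i hi
      exact h {z} (z, i) ⟨by simp, hi⟩
  have hSm : ∀ F, MeasurableSet (S F) := by
    intro F
    exact MeasurableSet.pi (Finset.countable_toSet _) (fun p _ => (hE p.1).compl)
  have hanti : Antitone S := by
    intro F G hFG ω hω p hp
    apply hω p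
    rw [Finset.mem_coe, mem_parts] at hp ⊢
    exact ⟨hFG hp.1, hp.2⟩
  have hdir : Directed (· ⊇ ·) S := by
    intro F G
    exact ⟨F ∪ G, hanti Finset.subset_union_left, hanti Finset.subset_union_right⟩
  have hval : ∀ F, law (S F) = ENNReal.ofReal (∏ z ∈ F, (1 - f z) ^ (u0 z)) := by
    intro F
    have h1 : law (S F) = ∏ p ∈ parts u0 F, treeLaw ((E p.1)ᶜ) := by
      unfold law
      exact Measure.infinitePi_pi (fun _ => treeLaw) (fun p _ => (hE p.1).compl)
    rw [h1, Finset.prod_finset_product (parts u0 F) F (fun z => Finset.range (u0 z))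
      (mem_parts u0 F)]
    rw [ENNReal.ofReal_prod_of_nonneg]
    · apply Finset.prod_congr rfl
      intro z _
      have h2 : treeLaw (E z)ᶜ = ENNReal.ofReal (1 - f z) := by
        rw [prob_compl_eq_one_sub (hE z), hl z, ENNReal.ofReal_sub _ (hf z).1,
          ENNReal.ofReal_one]
      simp only [h2]
      rw [Finset.prod_const, Finset.card_range, ENNReal.ofReal_pow (by linarith [(hf z).2])]
    · intro z _
      exact pow_nonneg (by linarith [(hf z).2]) _
  rw [hset, hdir.measure_iInter (fun F => (hSm F).nullMeasurableSet)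
    ⟨∅, measure_ne_top _ _⟩]
  unfold noHit
  have hbdd : BddBelow (Set.range (fun F : Finset ℤ => ∏ z ∈ F, (1 - f z) ^ (u0 z))) := by
    refine ⟨0, ?_⟩
    rintro _ ⟨F, rfl⟩
    exact Finset.prod_nonneg (fun z _ => pow_nonneg (by linarith [(hf z).2]) _)
  rw [Monotone.map_ciInf_of_continuousAt (f := ENNReal.ofReal)
    ENNReal.continuous_ofReal.continuousAt (fun a b h => ENNReal.ofReal_le_ofReal h) hbdd]
  exact iInf_congr hval

end BRW.H47
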